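import Pool.Agent.H.MP_e23cd6_ag.AK.Main

/-!
Abundance for compact Kaehler orbifolds (in particular projective klt pairs with standard coefficients)
uniformized by (arbitrary bounded domain) × ℂ^k whose leaves {b} × ℂ^k are flat.

D ⊆ ℂⁿ is a bounded domain, M = D × ℂ^k, Γ a group acting on M by biholomorphic maps, properly
discontinuously and cocompactly (fixed points and elements acting trivially are allowed), preserving a smooth
Kaehler metric of M and a continuous family of translation invariant Hermitian metrics of the leaves. X = M/Γ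
with its orbifold boundary Δ is a compact Kaehler orbifold, and sections of m(K_X + Δ) are the Γ-invariant
m-canonical forms F(y) (dy)^m on M.
-/

open Set Topology

namespace Pool.Agent.Results.MP_e23cd6_ag.FlatLeaves

/-- The (1,0)-derivative `∂_u ψ (x) = (D_u ψ - i D_{iu} ψ)/2` of a complex valued function on `ℂⁿ × ℂ^k`. -/
noncomputable def dHol {n k : ℕ} (ψ : (Fin n → ℂ) × (Fin k → ℂ) → ℂ)
    (x u : (Fin n → ℂ) × (Fin k → ℂ)) : ℂ :=
  (1 / 2 : ℂ) * (fderiv ℝ ψ x u - Complex.I * fderiv ℝ ψ x (Complex.I • u))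

/-- A smooth Kaehler metric on the open set `M` of `ℂⁿ × ℂ^k`: a smooth family of positive definite
Hermitian forms `h x`, complex linear in the first variable, with `∂_u h(v, w) = ∂_v h(u, w)`
(closedness of the associated (1,1)-form). -/
structure KaehlerMetric {n k : ℕ} (M : Set ((Fin n → ℂ) × (Fin k → ℂ))) where
  h : (Fin n → ℂ) × (Fin k → ℂ) → (Fin n → ℂ) × (Fin k → ℂ) → (Fin n → ℂ) × (Fin k → ℂ) → ℂ
  smooth : ∀ v w, ContDiffOn ℝ (⊤ : ℕ∞) (fun x => h x v w) M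
  add_left : ∀ x ∈ M, ∀ u v w, h x (u + v) w = h x u w + h x v w
  smul_left : ∀ x ∈ M, ∀ (c : ℂ) (v w : (Fin n → ℂ) × (Fin k → ℂ)), h x (c • v) w = c * h x v w
  herm : ∀ x ∈ M, ∀ v w, h x w v = (starRingEnd ℂ) (h x v w)
  pos : ∀ x ∈ M, ∀ v, v ≠ 0 → 0 < (h x v v).re
  kaehler : ∀ x ∈ M, ∀ u v w, dHol (fun y => h y v w) x u = dHol (fun y => h y u w) x v

/-- A compact Kaehler orbifold `(D × ℂ^k)/Γ`: a group `Γ` acting on `D × ℂ^k` by holomorphic maps (so by
biholomorphic maps), properly discontinuously and cocompactly, and preserving a Kaehler metric. -/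
structure CompactKaehlerQuotient {n : ℕ} (D : Set (Fin n → ℂ)) (k : ℕ) (Γ : Type) [Group Γ] where
  g : Γ → (Fin n → ℂ) × (Fin k → ℂ) → (Fin n → ℂ) × (Fin k → ℂ)
  maps : ∀ γ, MapsTo (g γ) (D ×ˢ univ) (D ×ˢ univ)
  holo : ∀ γ, DifferentiableOn ℂ (g γ) (D ×ˢ univ)
  one : ∀ x ∈ D ×ˢ (univ : Set (Fin k → ℂ)), g 1 x = x
  mul : ∀ γ δ, ∀ x ∈ D ×ˢ (univ : Set (Fin k → ℂ)), g (γ * δ) x = g γ (g δ x)
  proper : ∀ K ⊆ D ×ˢ (univ : Set (Fin k → ℂ)), IsCompact K → {γ | (g γ '' K ∩ K).Nonempty}.Finite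
  cocompact : ∃ K ⊆ D ×ˢ (univ : Set (Fin k → ℂ)), IsCompact K ∧
    ∀ x ∈ D ×ˢ (univ : Set (Fin k → ℂ)), ∃ γ, g γ x ∈ K
  metric : KaehlerMetric (D ×ˢ (univ : Set (Fin k → ℂ)))
  isometry : ∀ γ, ∀ x ∈ D ×ˢ (univ : Set (Fin k → ℂ)), ∀ v w,
    metric.h (g γ x) (fderiv ℂ (g γ) x v) (fderiv ℂ (g γ) x w) = metric.h x v w

/-- Flat metrics on the leaves `{b} × ℂ^k` (translation invariant Hermitian metrics `H b`, depending
continuously on `b ∈ D`), preserved by `Γ`: `g γ` maps the leaf through `x` isometrically to the leaf through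
`g γ x`. (For instance `H b v w = h (b, z) (0, v) (0, w)`, if this is independent of `z`.) -/
structure FlatLeafMetric {n : ℕ} {D : Set (Fin n → ℂ)} {k : ℕ} {Γ : Type} [Group Γ]
    (X : CompactKaehlerQuotient D k Γ) where
  H : (Fin n → ℂ) → (Fin k → ℂ) → (Fin k → ℂ) → ℂ
  cont : ∀ v w, ContinuousOn (fun b => H b v w) D
  add_left : ∀ b ∈ D, ∀ u v w, H b (u + v) w = H b u w + H b v w
  smul_left : ∀ b ∈ D, ∀ (c : ℂ) (v w : Fin k → ℂ), H b (c • v) w = c * H b v w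
  herm : ∀ b ∈ D, ∀ v w, H b w v = (starRingEnd ℂ) (H b v w)
  pos : ∀ b ∈ D, ∀ v, v ≠ 0 → 0 < (H b v v).re
  isometry : ∀ γ, ∀ x ∈ D ×ˢ (univ : Set (Fin k → ℂ)), ∀ v w,
    H (X.g γ x).1 (fderiv ℂ (X.g γ) x (0, v)).2 (fderiv ℂ (X.g γ) x (0, w)).2 = H x.1 v w

/-- For every bounded domain `D` of `ℂⁿ`, every `k` and every compact Kaehler orbifold `X = (D × ℂ^k)/Γ` with
flat leaves:
(1) the orbifold canonical bundle is semiample: for some `m ≥ 1` the invariant `m`-canonical forms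
(holomorphic `F` with `F(g y) det(Dg(y))^m = F(y)`) generate at every point, and they may be chosen constant
along the leaves `{b} × ℂ^k`;
(2) `Γ` acts on `D` through a properly discontinuous group of maps (the leaves have closed image in `X`);
(3) the leaves are covered by complex tori: the elements of `Γ` acting on the leaf `{b} × ℂ^k` as
translations act cocompactly on it. -/
theorem result {n : ℕ} {D : Set (Fin n → ℂ)} (hD : IsOpen D) (hconn : IsConnected D)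
    (hbdd : Bornology.IsBounded D) {k : ℕ} {Γ : Type} [Group Γ] (X : CompactKaehlerQuotient D k Γ)
    (L : FlatLeafMetric X) :
    (∃ m : ℕ, 0 < m ∧ ∀ x ∈ D ×ˢ (univ : Set (Fin k → ℂ)), ∃ F : (Fin n → ℂ) × (Fin k → ℂ) → ℂ,
      DifferentiableOn ℂ F (D ×ˢ univ) ∧
      (∀ γ, ∀ y ∈ D ×ˢ (univ : Set (Fin k → ℂ)), F (X.g γ y) * (fderiv ℂ (X.g γ) y).det ^ m = F y) ∧
      (∀ b z, F (b, z) = F (b, 0)) ∧ F x ≠ 0) ∧
    (∀ K ⊆ D, IsCompact K →
      {f : D → (Fin n → ℂ) | ∃ γ, (∃ b ∈ K, (X.g γ (b, 0)).1 ∈ K) ∧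
        f = fun b : D => (X.g γ ((b : Fin n → ℂ), 0)).1}.Finite) ∧
    ∀ b ∈ D, ∃ R : ℝ, ∀ z : Fin k → ℂ, ∃ γ, ∃ c : Fin k → ℂ,
      (∀ w, X.g γ (b, w) = (b, w + c)) ∧ ‖z + c‖ ≤ R :=
  Pool.Agent.H.MP_e23cd6_ag.AK.main hD hconn.isPreconnected hbdd X.g X.maps X.holo X.one X.mul
    X.proper X.cocompact
    ⟨X.metric.h, X.metric.smooth, X.metric.add_left, X.metric.smul_left, X.metric.herm,
      X.metric.pos, X.metric.kaehler⟩ X.isometry L.H L.cont
    (fun b hb => ⟨L.add_left b hb, L.smul_left b hb, L.herm b hb, L.pos b hb⟩) L.isometry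

end Pool.Agent.Results.MP_e23cd6_ag.FlatLeaves
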