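import Pool.Agent.H.MP_e23cd6_ag.PB.GFinal

/-!
# Relative log canonical divisors on fibre bundles with a reductive structure group are semiample
-/

set_option autoImplicit false

open MeasureTheory Pool.Agent.PG

namespace Pool.Agent.Results.MP_e23cd6_ag.ReductiveFibreBundles

/-- Let `F` be a compact complex manifold, or a normal compact complex space, with an action of the
complex reductive group `G`, and `N` a linearised line bundle on `F` generated by the `G`-stable space
`ℂ^κ` of sections (`Φ : Fib`). There are `e, M ≥ 1` such that for all reduced complex spaces `Z` (for instance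
complex manifolds or normal projective varieties, given by the sheaf of holomorphic functions), all
holomorphic fibre bundles `X → Z` with fibre `F` and structure group `G`, all line bundles `A` on `Z`
(transition functions `a`), and all sections `s` of `L ⊗ K_{X/Z} ^ (-m)`, where `L = N ⊗ A`, so that
`m (K_{X/Z} + D) = L` for `D = (1/m) div s`, the following holds at every point `z` of `Z`; `λ` is the
determinant of the bundle of the sections in `ℂ^κ` of `L` on the fibres, that is, of the direct image of `L`
if these are all the sections (`Bun.lam`).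

If the fibre pair `(F, D_z)` satisfies the condition `LC` (log canonical, and klt after a small change in the
linear system), then `λ ^ M` has a section which is not `0` at `z`, and if `Q` is a line bundle on `Z`
(transition functions `c`) and a section `k` of `Q ^ q` is not `0` at `z`, then for every point `x` of
`X` over `z` there is a section of `(L ⊗ Q) ^ (M q)` which is not `0` at `x`.

If `(F, D_z)` is klt, `Q` is a line bundle on `Z` and a section `k` of `(Q ⊗ λ) ^ q` is not `0` at
`z`, then for every point `x` of `X` over `z` there is a section of `(L ^ e ⊗ Q) ^ (M q)` which is not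
`0` at `x`. -/
theorem result {n : ℕ} (R : RG n) (EF : Type) [NormedAddCommGroup EF] [NormedSpace ℂ EF]
    [FiniteDimensional ℂ EF] [MeasureSpace EF] [BorelSpace EF]
    [(volume : Measure EF).IsAddHaarMeasure] (F : Type) [TopologicalSpace F] [CompactSpace F]
    (κ ι : Type) [Fintype κ] [DecidableEq κ] [Fintype ι] [DecidableEq ι] (m : ℕ) (hm : 1 ≤ m)
    (Φ : Fib R EF F κ ι m) :
    ∃ e M : ℕ, 1 ≤ e ∧ 1 ≤ M ∧
    ∀ (Z : Type) [TopologicalSpace Z] (O : CSp Z) (I : Type) (X : Bun Φ O I)
      (a : I → I → Z → ℂ) (s : SecS X a) (i : I) (z : Z), z ∈ X.U i →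
      (Φ.LC (s.S i z) →
        (∃ l : SecZ X (fun i j z => X.lam a i j z ^ M), l.f i z ≠ 0) ∧
        ∀ (c : I → I → Z → ℂ) (q : ℕ) (k : SecZ X (fun i j z => c i j z ^ q)), k.f i z ≠ 0 →
          ∀ j, ∀ y ∈ Φ.W j,
          ∃ T : SecN X (M * q) (fun i j z => (a i j z * c i j z) ^ (M * q)),
            tp (T.T i z) (Φ.v j y) ≠ 0) ∧
      (Φ.Klt (s.S i z) →
        ∀ (c : I → I → Z → ℂ) (q : ℕ) (k : SecZ X (fun i j z => (c i j z * X.lam a i j z) ^ q)),
          k.f i z ≠ 0 → ∀ j, ∀ y ∈ Φ.W j,
          ∃ T : SecN X (e * M * q) (fun i j z => (a i j z ^ e * c i j z) ^ (M * q)),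
            tp (T.T i z) (Φ.v j y) ≠ 0) := by
  obtain ⟨e, M, he, hM, h⟩ := finalG R hm Φ
  exact ⟨e, M, he, hM, fun Z _ O I X a s i z hz => h Z O I X a s i z hz⟩

end Pool.Agent.Results.MP_e23cd6_ag.ReductiveFibreBundles
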