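import Pool.Agent.H.MP_e23cd6_ag.TB.PointKlt
import Pool.Agent.H.MP_e23cd6_ag.TB.SemiBack
import Pool.Agent.H.MP_e23cd6_ag.TB.Pure

/-!
MP_e23cd6_ag: abundance for klt pairs on a fibre bundle `X → Z` with fibre `F` and structure group a
torus, from abundance for klt pairs on `F` and on `Z`.
-/

namespace Pool.Agent.Results.MP_e23cd6_ag.TorusBundles

open scoped Manifold ContDiff
open MeasureTheory Pool.Agent.Abd

/-- Let `π : X → Z` be a fibre bundle of compact complex manifolds with fibre `F` and structure group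
a torus `(ℂ^*)^n` acting on `F` (each one-parameter subgroup moving each point of `F` to a limit). Let
`B` be a linearised line bundle on `F`, `B' = twist M Λ` the line bundle `π^* M ⊗ B` on `X`, and for
the weight `χ` of `B` at a fixed point `y` let `wt M χ` be the restriction of `B'` to the section of
`π` given by `y`. Let `(X, Δ)` be klt with `Δ = (1/m) div s` any effective `ℚ`-divisor with
`m (K_X + Δ)` linearly equivalent to `k B'`. Then:
(1) there is a klt pair `(F, N)` with `m (K_F + N)` linearly equivalent to `k B`;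
(2) if `B` is semiample, then for each `χ` there is a klt pair `(Z, N_χ)` with `q m (K_Z + N_χ)`
linearly equivalent to `q k (wt M χ)`;
(3) if `K_X + Δ` is nef then `K_F + N` and all `K_Z + N_χ` are nef;
(4) `K_X + Δ` is semiample if and only if `K_F + N` and all `K_Z + N_χ` are semiample.
So abundance for klt pairs on `F` and on `Z` gives abundance for `(X, Δ)`. -/
theorem result (E₁ E₂ : Type) [NormedAddCommGroup E₁] [NormedSpace ℂ E₁] [FiniteDimensional ℂ E₁]
    [MeasureSpace E₁] [BorelSpace E₁] [(volume : Measure E₁).IsAddHaarMeasure]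
    [NormedAddCommGroup E₂] [NormedSpace ℂ E₂] [FiniteDimensional ℂ E₂] [MeasureSpace E₂]
    [BorelSpace E₂] [(volume : Measure E₂).IsAddHaarMeasure] (n : ℕ) (F X Z : Type)
    [TopologicalSpace F] [TopologicalSpace X] [TopologicalSpace Z] [ChartedSpace E₂ F]
    [ChartedSpace (E₁ × E₂) X] [ChartedSpace E₁ Z] [IsManifold 𝓘(ℂ, E₂) ω F]
    [IsManifold 𝓘(ℂ, E₁ × E₂) ω X] [IsManifold 𝓘(ℂ, E₁) ω Z] [CompactSpace F] [T2Space F]
    [CompactSpace X] [CompactSpace Z] [Nonempty Z] (A : TorusAction E₂ n F) (hA : A.HasLimits)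
    (π : X → Z) (h : TorusBundle E₁ A π) (M : LineBundle E₁ Z) (B : LineBundle E₂ F)
    (Λ : Linearization A B) (k m : ℕ) (hk : 1 ≤ k) (hm : 1 ≤ m)
    (s : Sec (h.twist M Λ) k m) (hs : s.Klt) :
    (∃ t : Sec B k m, t.Klt) ∧
      (B.Semiample → ∀ y χ, A.Fixed y → Λ.HasWeight y χ →
        ∃ q : ℕ, 1 ≤ q ∧ ∃ t : Sec (h.wt M χ) (q * k) (q * m), t.Klt) ∧
      ((h.twist M Λ).Nef →
        B.Nef ∧ ∀ y χ, A.Fixed y → Λ.HasWeight y χ → (h.wt M χ).Nef) ∧
      ((h.twist M Λ).Semiample ↔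
        B.Semiample ∧ ∀ y χ, A.Fixed y → Λ.HasWeight y χ → (h.wt M χ).Semiample) ∧
      (Abundant E₂ F → Abundant E₁ Z → (h.twist M Λ).Nef → (h.twist M Λ).Semiample) := by
  obtain ⟨C⟩ := exists_finCover B
  have h1 : ∃ t : Sec B k m, t.Klt := h.exists_fibre_klt C s hs
  have h2 : B.Semiample → ∀ y χ, A.Fixed y → Λ.HasWeight y χ →
      ∃ q : ℕ, 1 ≤ q ∧ ∃ t : Sec (h.wt M χ) (q * k) (q * m), t.Klt :=
    fun hB y χ hy hχ => h.exists_point_klt s hs hm C (fiber_norm Λ hk hm hB hy hχ C)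
  have h3 : (h.twist M Λ).Nef →
      B.Nef ∧ ∀ y χ, A.Fixed y → Λ.HasWeight y χ → (h.wt M χ).Nef :=
    fun hN => ⟨h.nef_fibre Λ hN, fun y χ hy hχ => h.nef_sect Λ hy hχ hN⟩
  have h4 : B.Semiample → (∀ y χ, A.Fixed y → Λ.HasWeight y χ → (h.wt M χ).Semiample) →
      (h.twist M Λ).Semiample := fun hB hS =>
    h.semiample_of Λ hB (fun l t v hv => exists_weight_component Λ t v hv)
      (fun l hl χ t ht v hv => weight_mem_hull Λ hA hl ht hv) hS
  refine ⟨h1, h2, h3, ⟨fun hS => ⟨h.semiample_fibre Λ hS, fun y χ hy hχ =>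
    h.semiample_sect Λ hy hχ hS⟩, fun hS => h4 hS.1 hS.2⟩, fun hF hZ hN => ?_⟩
  obtain ⟨hN1, hN2⟩ := h3 hN
  obtain ⟨t, ht⟩ := h1
  have hB : B.Semiample := hF B k m hk hm t ht hN1
  refine h4 hB (fun y χ hy hχ => ?_)
  obtain ⟨q, hq, g, hg⟩ := h2 hB y χ hy hχ
  exact hZ _ (q * k) (q * m) (Nat.mul_pos hq hk) (Nat.mul_pos hq hm) g hg (hN2 y χ hy hχ)

end Pool.Agent.Results.MP_e23cd6_ag.TorusBundles
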